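import Pool.Agent.H23.LZ.Defs

/-!
# Cycles of codimension one and two bound inside small vertex sets

`acy4`, `acy5`: if `U` has at most six vertices then every 3-cycle (4-cycle) mod 2 of `K` which
lives on the faces inside `U` is the boundary of a 4-chain (5-chain) which lives inside `U`.
-/

namespace H54LZ

open H40.VT H23.LZ

variable {N : ℕ}

/-! ### chains mod 2 and a vertex -/

theorem obd2 (c : Finset (Fin N) → ZMod 2) (τ : Finset (Fin N)) :
    obd c τ = ∑ v ∈ τᶜ, c (insert v τ) := by
  unfold obd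
  refine Finset.sum_congr rfl fun v _ => ?_
  have e : (-1 : ZMod 2) = 1 := by decide
  rw [e, one_pow, one_mul]

theorem obd_add (a b : Finset (Fin N) → ZMod 2) : obd (a + b) = obd a + obd b := by
  rw [← ordB_apply, ← ordB_apply, ← ordB_apply, map_add]

theorem obd_zero : obd (0 : Finset (Fin N) → ZMod 2) = 0 := by
  rw [← ordB_apply, map_zero]

/-- the part of the chain without `w` -/
def prt0 (w : Fin N) (c : Finset (Fin N) → ZMod 2) : Finset (Fin N) → ZMod 2 :=
  fun τ => if w ∈ τ then 0 else c τ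

/-- the link part of the chain at `w` -/
def prt1 (w : Fin N) (c : Finset (Fin N) → ZMod 2) : Finset (Fin N) → ZMod 2 :=
  fun τ => if w ∈ τ then 0 else c (insert w τ)

theorem obd_prt0 {w : Fin N} (c : Finset (Fin N) → ZMod 2) {τ : Finset (Fin N)} (hw : w ∉ τ) :
    obd c τ = obd (prt0 w c) τ + prt1 w c τ := by
  rw [obd2, obd2]
  have hm : w ∈ τᶜ := Finset.mem_compl.2 hw
  rw [← Finset.add_sum_erase τᶜ (fun v => c (insert v τ)) hm,
    ← Finset.add_sum_erase τᶜ (fun v => prt0 w c (insert v τ)) hm]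
  have h1 : prt0 w c (insert w τ) = 0 := by
    unfold prt0
    rw [if_pos (Finset.mem_insert_self w τ)]
  have h2 : prt1 w c τ = c (insert w τ) := by
    unfold prt1
    rw [if_neg hw]
  rw [h1, h2, zero_add, add_comm]
  congr 1
  refine Finset.sum_congr rfl fun v hv => ?_
  have hv' := (Finset.mem_erase.1 hv).1
  unfold prt0
  rw [if_neg]
  rw [Finset.mem_insert]
  rintro (e | e)
  · exact hv' e.symm
  · exact hw e

theorem obd_prt1 {w : Fin N} (c : Finset (Fin N) → ZMod 2) {τ : Finset (Fin N)} (hw : w ∉ τ) :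
    obd (prt1 w c) τ = obd c (insert w τ) := by
  rw [obd2, obd2]
  have hm : w ∈ τᶜ := Finset.mem_compl.2 hw
  rw [← Finset.add_sum_erase _ _ hm]
  have h1 : prt1 w c (insert w τ) = 0 := by
    unfold prt1
    rw [if_pos (Finset.mem_insert_self w τ)]
  rw [h1, zero_add]
  have e : (insert w τ)ᶜ = τᶜ.erase w := by
    ext x
    simp only [Finset.mem_compl, Finset.mem_insert, Finset.mem_erase]
    tauto
  rw [e]
  refine Finset.sum_congr rfl fun v hv => ?_
  have hv' := (Finset.mem_erase.1 hv).1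
  unfold prt1
  rw [if_neg, Finset.insert_comm]
  rw [Finset.mem_insert]
  rintro (e | e)
  · exact hv' e.symm
  · exact hw e

theorem obd_of_mem {w : Fin N} {c : Finset (Fin N) → ZMod 2} (hc : ∀ τ, w ∈ τ → c τ = 0)
    {τ : Finset (Fin N)} (hw : w ∈ τ) : obd c τ = 0 := by
  rw [obd2]
  exact Finset.sum_eq_zero fun v _ => hc _ (Finset.mem_insert_of_mem hw)

theorem prt0_mem {w : Fin N} {c : Finset (Fin N) → ZMod 2} {τ : Finset (Fin N)} (hw : w ∈ τ) :
    prt0 w c τ = 0 := by
  unfold prt0
  rw [if_pos hw]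

theorem prt1_mem {w : Fin N} {c : Finset (Fin N) → ZMod 2} {τ : Finset (Fin N)} (hw : w ∈ τ) :
    prt1 w c τ = 0 := by
  unfold prt1
  rw [if_pos hw]

/-- removing one vertex -/
theorem acy_step {L : Finset (Finset (Fin N))} (hL : DC L) (w : Fin N) {n : ℕ}
    (h1 : OAcy (ZMod 2) L n) (h2 : OAcy (ZMod 2) (lk L {w}) n) :
    OAcy (ZMod 2) (del L {w}) n := by
  intro z hz hbz
  have hz0 : ∀ τ, w ∈ τ → z τ = 0 := by
    intro τ hw
    by_contra hne
    have := (hz τ hne).1
    simp only [del, Finset.mem_filter, Finset.singleton_subset_iff] at this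
    exact this.2 hw
  obtain ⟨b, hb, hbz'⟩ := h1 z (fun τ hτ => by
    have := hz τ hτ
    simp only [del, Finset.mem_filter] at this
    exact ⟨this.1.1, this.2⟩) hbz
  have hb1 : OIn (lk L {w}) n (prt1 w b) := by
    intro τ hτ
    have hw : w ∉ τ := fun hw => hτ (prt1_mem hw)
    have e : prt1 w b τ = b (insert w τ) := by
      unfold prt1
      rw [if_neg hw]
    rw [e] at hτ
    obtain ⟨h3, h4⟩ := hb _ hτ
    rw [Finset.card_insert_of_notMem hw] at h4
    refine ⟨?_, by omega⟩
    rw [mem_lk]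
    refine ⟨Finset.disjoint_singleton_right.2 hw, ?_⟩
    rw [Finset.union_comm, ← Finset.insert_eq]
    exact h3
  have hb1z : obd (prt1 w b) = 0 := by
    funext τ
    by_cases hw : w ∈ τ
    · exact obd_of_mem (fun _ => prt1_mem) hw
    · rw [obd_prt1 b hw, hbz', hz0 _ (Finset.mem_insert_self w τ)]
      rfl
  obtain ⟨e, he, hbe⟩ := h2 _ hb1 hb1z
  have he0 : ∀ τ, w ∈ τ → e τ = 0 := by
    intro τ hw
    by_contra hne
    have := (he τ hne).1
    rw [mem_lk] at this
    exact Finset.disjoint_singleton_right.1 this.1 hw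
  refine ⟨prt0 w b + e, ?_, ?_⟩
  · intro τ hτ
    by_cases h3 : e τ = 0
    · have h4 : prt0 w b τ ≠ 0 := by
        intro h5
        apply hτ
        rw [Pi.add_apply, h3, h5, add_zero]
      have hw : w ∉ τ := fun hw => h4 (prt0_mem hw)
      have h5 : prt0 w b τ = b τ := by
        unfold prt0
        rw [if_neg hw]
      rw [h5] at h4
      obtain ⟨h6, h7⟩ := hb τ h4
      refine ⟨?_, h7⟩
      simp only [del, Finset.mem_filter, Finset.singleton_subset_iff]
      exact ⟨h6, hw⟩
    · obtain ⟨h6, h7⟩ := he τ h3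
      refine ⟨?_, h7⟩
      rw [mem_lk] at h6
      simp only [del, Finset.mem_filter, Finset.singleton_subset_iff]
      exact ⟨hL _ h6.2 _ Finset.subset_union_left, Finset.disjoint_singleton_right.1 h6.1⟩
  · funext τ
    rw [obd_add, hbe, Pi.add_apply]
    by_cases hw : w ∈ τ
    · rw [obd_of_mem (fun _ => prt0_mem) hw, prt1_mem hw, hz0 τ hw, add_zero]
    · rw [← obd_prt0 b hw, hbz']

/-- the complement of an open star in a link is acyclic -/
theorem del_acy {d : ℕ} {K : Finset (Finset (Fin N))} (h : Sph d K) (σ : Finset (Fin N))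
    {ρ : Finset (Fin N)} (hρ : ρ ∈ lk K σ) (hne : ρ.Nonempty) (n : ℕ) :
    OAcy (ZMod 2) (del (lk K σ) ρ) n := by
  apply OAcy_of (del_DC (lk_DC h.1 σ) ρ)
  rw [← del_Fam (lk_DC h.1 σ)]
  intro c hc _ hb
  exact LA_lk h.1 h.2.1 h.2.2 σ (↑ρ) ((mem_Fam (lk_DC h.1 σ)).2 hρ) (Finset.coe_nonempty.2 hne) c
    hc hb

/-- a top cycle of a link which misses a vertex is zero -/
theorem top_zero {d : ℕ} {K : Finset (Finset (Fin N))} (h : Sph d K) {σ : Finset (Fin N)} {n : ℕ}
    (hn : n + σ.card = d) {u : Fin N} (hu : {u} ∈ lk K σ) {c : Finset (Fin N) → ZMod 2}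
    (hc : OIn (lk K σ) n c) (hbc : obd c = 0) (hcu : ∀ τ, u ∈ τ → c τ = 0) : c = 0 := by
  obtain ⟨b, hb, hbc'⟩ := del_acy h σ hu (Finset.singleton_nonempty u) n c (by
    intro τ hτ
    obtain ⟨h1, h2⟩ := hc τ hτ
    refine ⟨?_, h2⟩
    simp only [del, Finset.mem_filter, Finset.singleton_subset_iff]
    exact ⟨h1, fun h3 => hτ (hcu τ h3)⟩) hbc
  have hb0 : b = 0 := by
    funext τ
    by_contra hne
    obtain ⟨h1, h2⟩ := hb τ hne
    simp only [del, Finset.mem_filter] at h1
    have := Cor_card h h1.1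
    omega
  rw [← hbc', hb0, obd_zero]

/-! ### induced subcomplexes -/

/-- the faces which are disjoint from `D` -/
def Rs (L : Finset (Finset (Fin N))) (D : Finset (Fin N)) : Finset (Finset (Fin N)) :=
  L.filter fun τ => Disjoint τ D

theorem Rs_DC {L : Finset (Finset (Fin N))} (hL : DC L) (D : Finset (Fin N)) : DC (Rs L D) := by
  intro τ hτ ρ hρ
  simp only [Rs, Finset.mem_filter] at hτ ⊢
  exact ⟨hL τ hτ.1 ρ hρ, hτ.2.mono_left hρ⟩

theorem Rs_empty (L : Finset (Finset (Fin N))) : Rs L ∅ = L := by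
  ext τ
  simp [Rs]

theorem Rs_insert (L : Finset (Finset (Fin N))) (r : Fin N) (D : Finset (Fin N)) :
    Rs L (insert r D) = del (Rs L D) {r} := by
  ext τ
  simp only [Rs, del, Finset.mem_filter, Finset.singleton_subset_iff,
    Finset.disjoint_insert_right]
  tauto

theorem Rs_single (L : Finset (Finset (Fin N))) (r : Fin N) : Rs L {r} = del L {r} := by
  ext τ
  simp only [Rs, del, Finset.mem_filter, Finset.singleton_subset_iff,
    Finset.disjoint_singleton_right]

theorem lk_Rs (L : Finset (Finset (Fin N))) {r : Fin N} {D : Finset (Fin N)} (hr : r ∉ D) :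
    lk (Rs L D) {r} = Rs (lk L {r}) D := by
  ext τ
  simp only [Rs, mem_lk, Finset.mem_filter, Finset.disjoint_union_left,
    Finset.disjoint_singleton_left]
  tauto

theorem Rs_step {L : Finset (Finset (Fin N))} (hL : DC L) {r : Fin N} {D : Finset (Fin N)}
    (hr : r ∉ D) {n : ℕ} (h1 : OAcy (ZMod 2) (Rs L D) n)
    (h2 : OAcy (ZMod 2) (Rs (lk L {r}) D) n) : OAcy (ZMod 2) (Rs L (insert r D)) n := by
  rw [Rs_insert]
  refine acy_step (Rs_DC hL D) r h1 ?_
  rw [lk_Rs L hr]
  exact h2

theorem lk_lk (K : Finset (Finset (Fin N))) {w r : Fin N} (h : r ≠ w) :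
    lk (lk K {w}) {r} = lk K {r, w} := by
  ext τ
  simp only [mem_lk, Finset.disjoint_singleton_right, Finset.disjoint_insert_right,
    Finset.mem_union, Finset.mem_singleton]
  have e : τ ∪ {r} ∪ {w} = τ ∪ {r, w} := by
    rw [Finset.union_assoc]
    rfl
  rw [e]
  have : ¬ w = r := fun e => h e.symm
  tauto

/-- top cycles which miss a vertex -/
theorem top_acy {d : ℕ} {K : Finset (Finset (Fin N))} (h : Sph d K) {σ D : Finset (Fin N)} {n : ℕ}
    (hn : n + σ.card = d) {u : Fin N} (hu : {u} ∈ lk K σ) (huD : u ∈ D) :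
    OAcy (ZMod 2) (Rs (lk K σ) D) n := by
  intro c hc hbc
  refine ⟨0, fun τ hτ => absurd rfl hτ, ?_⟩
  rw [obd_zero]
  symm
  refine top_zero h hn hu (fun τ hτ => ?_) hbc ?_
  · obtain ⟨h1, h2⟩ := hc τ hτ
    exact ⟨(Finset.mem_filter.1 h1).1, h2⟩
  · intro τ hτ
    by_contra hne
    have h1 := (Finset.mem_filter.1 (hc τ hne).1).2
    exact Finset.disjoint_left.1 h1 hτ huD

/-! ### the sphere -/

variable {K : Finset (Finset (Fin 18))} {α : Equiv.Perm (Fin 18)}

/-- antipode-free sets with at most three vertices are faces -/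
theorem ngb3 (h : Hyp K α) {τ : Finset (Fin 18)} (hc : τ.card ≤ 3) (ha : ∀ i ∈ τ, α i ∉ τ) :
    τ ∈ K := by
  obtain ⟨m, hm⟩ : ∃ m, τ.card + m = 3 := ⟨3 - τ.card, by omega⟩
  clear hc
  induction m generalizing τ with
  | zero => exact h.ngb τ (by omega) ha
  | succ m ih =>
    obtain ⟨w, hw⟩ : ∃ w, w ∉ τ ∪ τ.image α := by
      by_contra hcon
      push Not at hcon
      have h1 : (Finset.univ : Finset (Fin 18)) ⊆ τ ∪ τ.image α := fun x _ => hcon x
      have h2 := Finset.card_le_card h1
      have h3 := Finset.card_union_le τ (τ.image α)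
      have h4 := Finset.card_image_le (s := τ) (f := α)
      rw [Finset.card_univ, Fintype.card_fin] at h2
      omega
    rw [Finset.mem_union, not_or] at hw
    have hw2 : ∀ i ∈ τ, α i ≠ w := fun i hi e => hw.2 (Finset.mem_image.2 ⟨i, hi, e⟩)
    have h1 : insert w τ ∈ K := by
      apply ih
      · intro i hi
        rw [Finset.mem_insert] at hi ⊢
        rintro (e | e)
        · rcases hi with rfl | hi
          · exact h.free _ e
          · exact hw2 i hi e
        · rcases hi with rfl | hi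
          · exact hw2 _ e (h.inv _)
          · exact ha i hi e
      · rw [Finset.card_insert_of_notMem hw.1]
        omega
    exact h.sph.1 _ h1 _ (Finset.subset_insert w τ)

theorem edge (h : Hyp K α) {u w : Fin 18} (h1 : u ≠ w) (h2 : u ≠ α w) : {u} ∈ lk K {w} := by
  rw [mem_lk]
  refine ⟨Finset.disjoint_singleton.2 h1, ?_⟩
  have h3 : α u ≠ w := fun e => h2 (by rw [← e, h.inv])
  apply ngb3 h
  · exact (Finset.card_union_le _ _).trans (by simp)
  · intro i hi
    simp only [Finset.mem_union, Finset.mem_singleton] at hi ⊢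
    rintro (e | e)
    · rcases hi with rfl | rfl
      · exact h.free _ e
      · exact h2 e.symm
    · rcases hi with rfl | rfl
      · exact h3 e
      · exact h.free _ e

theorem tri (h : Hyp K α) {u r w : Fin 18} (h1 : u ≠ w) (h2 : u ≠ α w) (h3 : u ≠ r)
    (h4 : u ≠ α r) (h5 : r ≠ w) (h6 : r ≠ α w) : {u} ∈ lk K {r, w} := by
  rw [mem_lk]
  refine ⟨by simp [h1, h3], ?_⟩
  have h2' : α u ≠ w := fun e => h2 (by rw [← e, h.inv])
  have h4' : α u ≠ r := fun e => h4 (by rw [← e, h.inv])
  have h6' : α r ≠ w := fun e => h6 (by rw [← e, h.inv])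
  apply ngb3 h
  · refine (Finset.card_union_le _ _).trans ?_
    have := Finset.card_le_two (a := r) (b := w)
    rw [Finset.card_singleton]
    omega
  · intro i hi
    simp only [Finset.mem_union, Finset.mem_singleton, Finset.mem_insert] at hi ⊢
    rintro (e | e | e)
    · rcases hi with rfl | rfl | rfl
      · exact h.free _ e
      · exact h4 e.symm
      · exact h2 e.symm
    · rcases hi with rfl | rfl | rfl
      · exact h4' e
      · exact h.free _ e
      · exact h6 e.symm
    · rcases hi with rfl | rfl | rfl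
      · exact h2' e
      · exact h6' e
      · exact h.free _ e

/-- a vertex which is not in the link can be removed for free -/
theorem Rs_free (h : Hyp K α) {r w : Fin 18} (D : Finset (Fin 18)) (hr : r = w ∨ r = α w) :
    Rs (lk K {w}) (insert r D) = Rs (lk K {w}) D := by
  ext τ
  simp only [Rs, Finset.mem_filter, Finset.disjoint_insert_right, mem_lk]
  constructor
  · rintro ⟨h1, h2⟩
    exact ⟨h1, h2.2⟩
  · rintro ⟨h1, h2⟩
    refine ⟨h1, ?_, h2⟩
    intro h3
    rcases hr with rfl | rfl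
    · exact Finset.disjoint_singleton_right.1 h1.1 h3
    · exact h.noa _ h1.2 w (by simp) (Finset.mem_union_left _ h3)

theorem step2 (h : Hyp K α) {w r u : Fin 18} {D : Finset (Fin 18)} (hr : r ∉ D) (hu : u ∈ D)
    (h1 : u ≠ w) (h2 : u ≠ α w) (h4 : u ≠ α r)
    (ho : OAcy (ZMod 2) (Rs (lk K {w}) D) 4) :
    OAcy (ZMod 2) (Rs (lk K {w}) (insert r D)) 4 := by
  by_cases hrw : r = w ∨ r = α w
  · rw [Rs_free h D hrw]
    exact ho
  · rw [not_or] at hrw
    refine Rs_step (lk_DC h.sph.1 _) hr ho ?_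
    rw [lk_lk K hrw.1]
    have hur : u ≠ r := fun e => hr (e ▸ hu)
    refine top_acy h.sph ?_ (tri h h1 h2 hur h4 hrw.1 hrw.2) hu
    rw [Finset.card_pair hrw.1]

theorem L2 (h : Hyp K α) {w p q : Fin 18} (hp1 : p ≠ w) (hp2 : p ≠ α w) (hq1 : q ≠ w)
    (hq2 : q ≠ α w) (h1 : p ≠ q) (h2 : p ≠ α q) (E : Finset (Fin 18)) :
    OAcy (ZMod 2) (Rs (lk K {w}) (insert p (insert q E))) 4 := by
  have h2' : q ≠ α p := fun e => h2 (by rw [e, h.inv])
  induction E using Finset.induction_on with
  | empty =>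
    refine step2 h (by simp [h1]) (Finset.mem_insert_self q ∅) hq1 hq2 h2' ?_
    rw [insert_empty_eq, Rs_single]
    exact del_acy h.sph _ (edge h hq1 hq2) (Finset.singleton_nonempty q) 4
  | insert r E hr ih =>
    have e : insert p (insert q (insert r E)) = insert r (insert p (insert q E)) := by
      ext x
      simp only [Finset.mem_insert]
      tauto
    rw [e]
    by_cases hrm : r ∈ insert p (insert q E)
    · rw [Finset.insert_eq_of_mem hrm]
      exact ih
    · by_cases hpr : p = α r
      · have hqr : q ≠ α r := fun e => h1 (by rw [hpr, e])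
        exact step2 h hrm (by simp) hq1 hq2 hqr ih
      · exact step2 h hrm (by simp) hp1 hp2 hpr ih

theorem L1 (h : Hyp K α) {a b c : Fin 18} (hab : a ≠ b) (hab' : a ≠ α b) (hac : a ≠ c)
    (hac' : a ≠ α c) (hbc : b ≠ c) (hbc' : b ≠ α c) (E : Finset (Fin 18)) :
    OAcy (ZMod 2) (Rs K (insert a (insert b (insert c E)))) 4 := by
  have hba' : b ≠ α a := fun e => hab' (by rw [e, h.inv])
  have hca' : c ≠ α a := fun e => hac' (by rw [e, h.inv])
  have hcb' : c ≠ α b := fun e => hbc' (by rw [e, h.inv])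
  have hK := h.sph.1
  have s0 : OAcy (ZMod 2) (Rs K ∅) 4 := by
    rw [Rs_empty]
    have := link_acy (R := ZMod 2) hK h.sph.2.1 h.sph.2.2 h.sph.2.1 (n := 4) (by simp)
    rwa [lk_empty] at this
  have vx : ∀ v : Fin 18, {v} ∈ K := fun v => ngb3 h (by simp) (by
    intro i hi
    rw [Finset.mem_singleton] at hi ⊢
    subst hi
    exact h.free i)
  have s1 : OAcy (ZMod 2) (Rs K {c}) 4 := by
    refine Rs_step (D := ∅) hK (Finset.notMem_empty c) s0 ?_
    rw [Rs_empty]
    exact link_acy hK h.sph.2.1 h.sph.2.2 (vx c) (by simp)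
  have s2 : OAcy (ZMod 2) (Rs K {b, c}) 4 := by
    refine Rs_step hK (by simpa using hbc) s1 ?_
    rw [Rs_single]
    exact del_acy h.sph _ (edge h (Ne.symm hbc) hcb') (Finset.singleton_nonempty c) 4
  induction E using Finset.induction_on with
  | empty =>
    refine Rs_step hK (by simp [hab, hac]) s2 ?_
    exact L2 h (Ne.symm hab) hba' (Ne.symm hac) hca' hbc hbc' ∅
  | insert r E hr ih =>
    have e : insert a (insert b (insert c (insert r E)))
        = insert r (insert a (insert b (insert c E))) := by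
      ext x
      simp only [Finset.mem_insert]
      tauto
    rw [e]
    by_cases hrm : r ∈ insert a (insert b (insert c E))
    · rw [Finset.insert_eq_of_mem hrm]
      exact ih
    · refine Rs_step hK hrm ih ?_
      have hra : a ≠ r := fun e => hrm (by simp [e])
      have hrb : b ≠ r := fun e => hrm (by simp [e])
      have hrc : c ≠ r := fun e => hrm (by simp [e])
      by_cases har : a = α r
      · have hbr : b ≠ α r := fun e => hab (by rw [har, e])
        have hcr : c ≠ α r := fun e => hac (by rw [har, e])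
        have := L2 h hrb hbr hrc hcr hbc hbc' (insert a E)
        have e2 : insert b (insert c (insert a E)) = insert a (insert b (insert c E)) := by
          ext x
          simp only [Finset.mem_insert]
          tauto
        rwa [e2] at this
      · by_cases hbr : b = α r
        · have hcr : c ≠ α r := fun e => hbc (by rw [hbr, e])
          have := L2 h hra har hrc hcr hac hac' (insert b E)
          have e2 : insert a (insert c (insert b E)) = insert a (insert b (insert c E)) := by
            ext x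
            simp only [Finset.mem_insert]
            tauto
          rwa [e2] at this
        · exact L2 h hra har hrb hbr hab hab' (insert c E)

theorem M1 (h : Hyp K α) {a b : Fin 18} (hab : a ≠ b) (hab' : a ≠ α b) (E : Finset (Fin 18)) :
    OAcy (ZMod 2) (Rs K (insert a (insert b E))) 5 := by
  have hba' : b ≠ α a := fun e => hab' (by rw [e, h.inv])
  have hK := h.sph.1
  have vx : ∀ v : Fin 18, {v} ∈ K := fun v => ngb3 h (by simp) (by
    intro i hi
    rw [Finset.mem_singleton] at hi ⊢
    subst hi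
    exact h.free i)
  have s1 : OAcy (ZMod 2) (Rs K {b}) 5 := by
    rw [Rs_single]
    have := del_acy h.sph ∅ (ρ := {b}) (by rw [lk_empty]; exact vx b)
      (Finset.singleton_nonempty b) 5
    rwa [lk_empty] at this
  induction E using Finset.induction_on with
  | empty =>
    refine Rs_step hK (by simp [hab]) s1 ?_
    exact top_acy h.sph (by simp) (edge h (Ne.symm hab) hba') (by simp)
  | insert r E hr ih =>
    have e : insert a (insert b (insert r E)) = insert r (insert a (insert b E)) := by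
      ext x
      simp only [Finset.mem_insert]
      tauto
    rw [e]
    by_cases hrm : r ∈ insert a (insert b E)
    · rw [Finset.insert_eq_of_mem hrm]
      exact ih
    · refine Rs_step hK hrm ih ?_
      have hra : a ≠ r := fun e => hrm (by simp [e])
      have hrb : b ≠ r := fun e => hrm (by simp [e])
      by_cases har : a = α r
      · have hbr : b ≠ α r := fun e => hab (by rw [har, e])
        exact top_acy h.sph (by simp) (edge h hrb hbr) (by simp)
      · exact top_acy h.sph (by simp) (edge h hra har) (by simp)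

theorem exists_out (α : Equiv.Perm (Fin 18)) (W : Finset (Fin 18)) {A : Finset (Fin 18)}
    (h : 2 * A.card < W.card) : ∃ w, w ∈ W ∧ w ∉ A ∧ ∀ i ∈ A, w ≠ α i := by
  obtain ⟨w, hw, hw2⟩ : ∃ w ∈ W, w ∉ A ∪ A.image α := by
    by_contra hcon
    push Not at hcon
    have h1 : W ⊆ A ∪ A.image α := fun x hx => hcon x hx
    have h2 := Finset.card_le_card h1
    have h3 := Finset.card_union_le A (A.image α)
    have h4 := Finset.card_image_le (s := A) (f := α)
    omega
  rw [Finset.mem_union, not_or] at hw2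
  exact ⟨w, hw, hw2.1, fun i hi e => hw2.2 (Finset.mem_image.2 ⟨i, hi, e.symm⟩)⟩

theorem Rs_compl (K : Finset (Finset (Fin 18))) (U : Finset (Fin 18)) :
    (K.filter fun τ => τ ⊆ U) = Rs K Uᶜ := by
  ext τ
  simp only [Rs, Finset.mem_filter, and_congr_right_iff]
  intro _
  rw [← Finset.subset_compl_iff_disjoint_right, compl_compl]

/-- three vertices outside `U`, from different antipodal pairs -/
theorem three (α : Equiv.Perm (Fin 18)) {U : Finset (Fin 18)} (hU : U.card ≤ 13) :
    ∃ a b c, (a ∈ Uᶜ ∧ b ∈ Uᶜ ∧ c ∈ Uᶜ) ∧ a ≠ b ∧ a ≠ α b ∧ a ≠ c ∧ a ≠ α c ∧ b ≠ c ∧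
      b ≠ α c := by
  have hc : 5 ≤ Uᶜ.card := by
    rw [Finset.card_compl, Fintype.card_fin]
    omega
  obtain ⟨c, hc1, -⟩ := exists_out α Uᶜ (A := ∅) (by
    rw [Finset.card_empty]
    omega)
  obtain ⟨b, hb0, hb1, hb2⟩ := exists_out α Uᶜ (A := {c}) (by
    rw [Finset.card_singleton]
    omega)
  obtain ⟨a, ha0, ha1, ha2⟩ := exists_out α Uᶜ (A := {b, c}) (by
    have := Finset.card_le_two (a := b) (b := c)
    omega)
  simp only [Finset.mem_insert, Finset.mem_singleton, not_or] at hb1 ha1
  exact ⟨a, b, c, ⟨ha0, hb0, hc1⟩, ha1.1, ha2 b (by simp), ha1.2, ha2 c (by simp), hb1,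
    hb2 c (by simp)⟩

/-- **3-cycles mod 2 on a vertex set bound on this vertex set** -/
theorem acy4' (h : Hyp K α) {U : Finset (Fin 18)} (hU : U.card ≤ 13) :
    OAcy (ZMod 2) (K.filter fun τ => τ ⊆ U) 4 := by
  obtain ⟨a, b, c, ⟨ha, hb, hc⟩, h1, h2, h3, h4, h5, h6⟩ := three α hU
  have := L1 h h1 h2 h3 h4 h5 h6 Uᶜ
  rw [Rs_compl]
  rwa [Finset.insert_eq_of_mem hc, Finset.insert_eq_of_mem hb, Finset.insert_eq_of_mem ha] at this

/-- **4-cycles mod 2 on a vertex set bound on this vertex set** -/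
theorem acy5' (h : Hyp K α) {U : Finset (Fin 18)} (hU : U.card ≤ 13) :
    OAcy (ZMod 2) (K.filter fun τ => τ ⊆ U) 5 := by
  obtain ⟨a, b, c, ⟨ha, hb, hc⟩, h1, h2, h3, h4, h5, h6⟩ := three α hU
  have := M1 h h1 h2 Uᶜ
  rw [Rs_compl]
  rwa [Finset.insert_eq_of_mem hb, Finset.insert_eq_of_mem ha] at this

theorem acy4 (h : Hyp K α) {U : Finset (Fin 18)} (hU : U.card ≤ 6) :
    OAcy (ZMod 2) (K.filter fun τ => τ ⊆ U) 4 := acy4' h (by omega)

theorem acy5 (h : Hyp K α) {U : Finset (Fin 18)} (hU : U.card ≤ 6) :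
    OAcy (ZMod 2) (K.filter fun τ => τ ⊆ U) 5 := acy5' h (by omega)

end H54LZ
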